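import Pool.Agent.helper4.QX.SpecD
import Pool.Agent.helper62.QU.All

set_option autoImplicit false

open scoped MatrixGroups ContDiff Topology UpperHalfPlane
open UpperHalfPlane MeasureTheory ProbabilityTheory Filter Set Polynomial
open Pool.Agent.QU Pool.Agent.RP

namespace Pool.Agent.QX

private theorem FBE_prob (ι : Type) [Fintype ι] : IsProbabilityMeasure (gau ι) := by
  unfold gau
  infer_instance

/-- both signs, with the mean value -/
private def FBE_Good (Γ : Subgroup SL(2, ℝ)) (F : Set ℍ) (h : ℍ → ℝ) (ε s : ℝ) (N : ℕ)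
    (ρ : Γ →* (EuclideanSpace ℂ (Fin N) ≃ₗᵢ[ℂ] EuclideanSpace ℂ (Fin N))) : Prop :=
  ∀ (φ : ℍ → EuclideanSpace ℂ (Fin N)) (μ : ℝ), IsEigensection ρ μ φ → 0 ≤ μ →
    μ ≤ Real.exp ((N : ℝ) ^ s) →
      |(∫ z in F, h z * ‖φ z‖ ^ 2) - (∫ z in F, h z) / (volume F).toReal * ∫ z in F, ‖φ z‖ ^ 2| ≤
        ε * ∫ z in F, ‖φ z‖ ^ 2

/-- invariant continuous functions are integrable over a nice domain -/
private theorem FBE_int {Γ : Subgroup SL(2, ℝ)} {F : Set ℍ} (hΓ : SurfaceGroup Γ) (hF : NiceDom Γ F)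
    {g : ℍ → ℝ} (hg : Inv Γ g) : IntegrableOn g F volume := by
  obtain ⟨m, hm⟩ := (A_BDD Γ F g hΓ hF hg).1
  obtain ⟨-, -, -, hfin, -, -⟩ := A_DOB Γ F hΓ hF
  haveI : IsFiniteMeasure (volume.restrict F : Measure ℍ) := ⟨by
    rw [Measure.restrict_apply_univ]; exact hfin⟩
  refine Integrable.of_bound hg.1.aestronglyMeasurable m ?_
  exact Filter.Eventually.of_forall fun z => by rw [Real.norm_eq_abs]; exact hm z

private theorem FBE_inv_sq {Γ : Subgroup SL(2, ℝ)} {V : Type} [NormedAddCommGroup V]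
    [InnerProductSpace ℂ V] {ρ : Γ →* (V ≃ₗᵢ[ℂ] V)} {μ : ℝ} {φ : ℍ → V}
    (hφ : IsEigensection ρ μ φ) : Inv Γ (fun z => ‖φ z‖ ^ 2) := by
  obtain ⟨h1, h2, -⟩ := hφ
  have hc : Continuous φ := (CA1_cont φ).1 (h1.of_le (by exact_mod_cast zero_le))
  refine ⟨(hc.norm).pow 2, fun γ z => ?_⟩
  simp only [h2 γ z, LinearIsometryEquiv.norm_map]

private theorem FBE_inv_mul {Γ : Subgroup SL(2, ℝ)} {f g : ℍ → ℝ} (hf : Inv Γ f) (hg : Inv Γ g) :
    Inv Γ (fun z => f z * g z) :=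
  ⟨hf.1.mul hg.1, fun γ z => by simp only [hf.2 γ z, hg.2 γ z]⟩

/-- Step A: the random set for a function and both signs -/
private theorem FBE_stepA {Γ : Subgroup SL(2, ℝ)} (hΓ : SurfaceGroup Γ) {F : Set ℍ}
    (hF : NiceDom Γ F) (c s : ℝ) (hs : 0 < s) (θ : ℕ → (Γ →* F2))
    (hP : ∀ (h : ℍ → ℝ), Inv Γ h →
      (∫ z in F, h z) = 0 → ∀ ε : ℝ, 0 < ε → ∃ N₀ : ℕ, ∀ N : ℕ, N₀ ≤ N → ∃ B : Set (GI N → ℝ),
        (gau (GI N)).real B ≤ Real.exp (-(N : ℝ) ^ s) ∧ ∀ x : GI N → ℝ, x ∉ B →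
          Good Γ F h ε s N ((UR c x).comp (θ N)))
    (h : ℍ → ℝ) (hh : Inv Γ h) (ε η : ℝ) (hε : 0 < ε) (hη : 0 < η) :
    ∃ N₀ : ℕ, ∀ N : ℕ, N₀ ≤ N → ∃ B : Set (GI N → ℝ),
        (gau (GI N)) B ≤ ENNReal.ofReal η ∧ ∀ x : GI N → ℝ, x ∉ B →
          FBE_Good Γ F h ε s N ((UR c x).comp (θ N)) := by
  obtain ⟨-, -, hpos, hfin, -, -⟩ := A_DOB Γ F hΓ hF
  haveI : IsFiniteMeasure (volume.restrict F : Measure ℍ) := ⟨by
    rw [Measure.restrict_apply_univ]; exact hfin⟩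
  have hv : 0 < (volume F).toReal := ENNReal.toReal_pos hpos.ne' hfin.ne
  set m : ℝ := (∫ z in F, h z) / (volume F).toReal with hm
  have hi := FBE_int hΓ hF hh
  have hconst : (∫ _z in F, m) = ∫ z in F, h z := by
    rw [integral_const, smul_eq_mul, measureReal_restrict_apply_univ, measureReal_def, hm]
    field_simp
  have hmi : IntegrableOn (fun _ : ℍ => m) F volume := integrable_const m
  have i1 : Inv Γ (fun z => h z - m) := ⟨hh.1.sub continuous_const, fun γ z => by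
    simp only [hh.2 γ z]⟩
  have i2 : Inv Γ (fun z => m - h z) := ⟨continuous_const.sub hh.1, fun γ z => by
    simp only [hh.2 γ z]⟩
  have z1 : (∫ z in F, (h z - m)) = 0 := by
    rw [integral_sub hi hmi, hconst, sub_self]
  have z2 : (∫ z in F, (m - h z)) = 0 := by
    rw [integral_sub hmi hi, hconst, sub_self]
  obtain ⟨N1, hN1⟩ := hP _ i1 z1 ε hε
  obtain ⟨N2, hN2⟩ := hP _ i2 z2 ε hε
  -- the exponential is small
  have hlim : Tendsto (fun N : ℕ => Real.exp (-(N : ℝ) ^ s)) atTop (𝓝 0) := by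
    refine Real.tendsto_exp_neg_atTop_nhds_zero.comp ?_
    exact (tendsto_rpow_atTop hs).comp tendsto_natCast_atTop_atTop
  obtain ⟨N3, hN3⟩ := Filter.eventually_atTop.1 (hlim.eventually_lt_const (half_pos hη))
  refine ⟨max N1 (max N2 N3), fun N hN => ?_⟩
  have g1 : N1 ≤ N := (le_max_left _ _).trans hN
  have g2 : N2 ≤ N := ((le_max_left _ _).trans (le_max_right _ _)).trans hN
  have g3 : N3 ≤ N := ((le_max_right _ _).trans (le_max_right _ _)).trans hN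
  obtain ⟨B1, hB1, hG1⟩ := hN1 N g1
  obtain ⟨B2, hB2, hG2⟩ := hN2 N g2
  haveI := FBE_prob (GI N)
  have hsm := hN3 N g3
  have conv : ∀ B : Set (GI N → ℝ), (gau (GI N)).real B ≤ Real.exp (-(N : ℝ) ^ s) →
      gau (GI N) B ≤ ENNReal.ofReal (η / 2) := by
    intro B hB
    rw [← ofReal_measureReal (μ := gau (GI N)) (s := B)]
    exact ENNReal.ofReal_le_ofReal (hB.trans hsm.le)
  refine ⟨B1 ∪ B2, ?_, ?_⟩
  · refine (measure_union_le _ _).trans ?_
    refine (add_le_add (conv B1 hB1) (conv B2 hB2)).trans ?_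
    rw [← ENNReal.ofReal_add (half_pos hη).le (half_pos hη).le, add_halves]
  · intro x hx φ μ hφ hμ0 hμ
    have hx1 : x ∉ B1 := fun hc => hx (Or.inl hc)
    have hx2 : x ∉ B2 := fun hc => hx (Or.inr hc)
    have k1 := hG1 x hx1 φ μ hφ hμ0 hμ
    have k2 := hG2 x hx2 φ μ hφ hμ0 hμ
    have isq := FBE_inv_sq hφ
    have j1 := FBE_int hΓ hF isq
    have j2 := FBE_int hΓ hF (FBE_inv_mul hh isq)
    have j3 : IntegrableOn (fun z => m * ‖φ z‖ ^ 2) F volume := j1.const_mul m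
    have e1 : (∫ z in F, (h z - m) * ‖φ z‖ ^ 2) =
        (∫ z in F, h z * ‖φ z‖ ^ 2) - m * ∫ z in F, ‖φ z‖ ^ 2 := by
      rw [← integral_const_mul, ← integral_sub j2 j3]
      refine integral_congr_ae (Filter.Eventually.of_forall fun z => ?_)
      simp only
      ring
    have e2 : (∫ z in F, (m - h z) * ‖φ z‖ ^ 2) =
        -((∫ z in F, h z * ‖φ z‖ ^ 2) - m * ∫ z in F, ‖φ z‖ ^ 2) := by
      rw [← e1, ← integral_neg]
      refine integral_congr_ae (Filter.Eventually.of_forall fun z => ?_)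
      simp only
      ring
    rw [e1] at k1
    rw [e2] at k2
    rw [abs_le]
    constructor
    · linarith
    · exact k1

theorem FBE (hPRB : PRB_stmt) (hSEP : SEP_stmt) : FBE_stmt := by
  obtain ⟨c, s, hs, hP0⟩ := hPRB
  refine ⟨s, hs, fun Γ hΓ g hg hne => ?_⟩
  obtain ⟨e⟩ := hne
  obtain ⟨θ, hP1⟩ := hP0 Γ g e hg hΓ
  obtain ⟨F, hF⟩ := A_DOM Γ hΓ
  obtain ⟨H, hHinv, hHd⟩ := hSEP Γ hΓ
  have hA : ∀ n : ℕ, ∃ N₀ : ℕ, ∀ N : ℕ, N₀ ≤ N → ∃ B : Set (GI N → ℝ),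
      (gau (GI N)) B ≤ ENNReal.ofReal ((1 / 2 : ℝ) ^ (n + 2)) ∧ ∀ x : GI N → ℝ, x ∉ B →
        FBE_Good Γ F (H n.unpair.1) (1 / ((n.unpair.2 : ℝ) + 1)) s N ((UR c x).comp (θ N)) := by
    intro n
    exact FBE_stepA hΓ hF c s hs θ (fun h hh hz ε hε => hP1 F h hF hh hz ε hε) _ (hHinv _)
      _ _ (by positivity) (by positivity)
  choose N₀ hN₀ using hA
  have hB : ∀ N : ℕ, ∃ x : GI N → ℝ, ∀ n : ℕ, N₀ n ≤ N →
      FBE_Good Γ F (H n.unpair.1) (1 / ((n.unpair.2 : ℝ) + 1)) s N ((UR c x).comp (θ N)) := by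
    intro N
    haveI := FBE_prob (GI N)
    have hB1 : ∀ n : ℕ, ∃ B : Set (GI N → ℝ),
        (gau (GI N)) B ≤ ENNReal.ofReal ((1 / 2 : ℝ) ^ (n + 2)) ∧ ∀ x : GI N → ℝ, x ∉ B →
          N₀ n ≤ N → FBE_Good Γ F (H n.unpair.1) (1 / ((n.unpair.2 : ℝ) + 1)) s N
            ((UR c x).comp (θ N)) := by
      intro n
      by_cases hn : N₀ n ≤ N
      · obtain ⟨B, b1, b2⟩ := hN₀ n N hn
        exact ⟨B, b1, fun x hx _ => b2 x hx⟩
      · exact ⟨∅, by simp, fun x _ h' => absurd h' hn⟩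
    choose B b1 b2 using hB1
    have hsum : HasSum (fun n : ℕ => (1 / 2 : ℝ) ^ (n + 2)) (1 / 2) := by
      have := (hasSum_geometric_of_lt_one (r := (1 / 2 : ℝ)) (by norm_num) (by norm_num)).mul_left
        ((1 / 2 : ℝ) ^ 2)
      have e1 : (1 / 2 : ℝ) ^ 2 * (1 - 1 / 2)⁻¹ = 1 / 2 := by norm_num
      rw [e1] at this
      refine this.congr_fun ?_
      intro n
      rw [pow_add]
      ring
    have hU : gau (GI N) (⋃ n, B n) ≤ ENNReal.ofReal (1 / 2) := by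
      refine (measure_iUnion_le _).trans ?_
      refine (ENNReal.tsum_le_tsum b1).trans ?_
      rw [← ENNReal.ofReal_tsum_of_nonneg (fun n => by positivity) hsum.summable, hsum.tsum_eq]
    have hne : (⋃ n, B n) ≠ univ := by
      intro hc
      rw [hc, measure_univ] at hU
      have : (1 : ENNReal) ≤ ENNReal.ofReal (1 / 2) := hU
      rw [ENNReal.one_le_ofReal] at this
      norm_num at this
    obtain ⟨x, hx⟩ := (Set.ne_univ_iff_exists_notMem _).1 hne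
    refine ⟨x, fun n hn => b2 n x (fun hc => hx (Set.mem_iUnion.2 ⟨n, hc⟩)) hn⟩
  choose x hx using hB
  refine ⟨fun N => (UR c (x N)).comp (θ N), fun h hh ε hε => ?_⟩
  have hh' : Inv Γ h := hh
  obtain ⟨i, hi⟩ := hHd h hh' (ε / 4) (by positivity)
  obtain ⟨l, hl⟩ := exists_nat_one_div_lt (show (0 : ℝ) < ε / 4 by positivity)
  have hx' : ∀ N, N₀ (Nat.pair i l) ≤ N →
      FBE_Good Γ F (H i) (1 / ((l : ℝ) + 1)) s N ((UR c (x N)).comp (θ N)) := by
    intro N hN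
    have := hx N (Nat.pair i l) hN
    rw [Nat.unpair_pair] at this
    exact this
  refine Filter.eventually_atTop.2 ⟨N₀ (Nat.pair i l), fun N hN μ φ hμ0 hμ hφ => ?_⟩
  have key := hx' N hN φ μ hφ hμ0 hμ
  obtain ⟨-, -, hpos, hfin, hdom, -⟩ := A_DOB Γ F hΓ hF
  haveI : IsFiniteMeasure (volume.restrict F : Measure ℍ) := ⟨by
    rw [Measure.restrict_apply_univ]; exact hfin⟩
  have hv : 0 < (volume F).toReal := ENNReal.toReal_pos hpos.ne' hfin.ne
  have isq := FBE_inv_sq hφ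
  have j0 := FBE_int hΓ hF hh'
  have j0' := FBE_int hΓ hF (hHinv i)
  have j1 := FBE_int hΓ hF isq
  have j2 := FBE_int hΓ hF (FBE_inv_mul hh' isq)
  have j3 := FBE_int hΓ hF (FBE_inv_mul (hHinv i) isq)
  intro F' hF'
  obtain ⟨hvF, hint⟩ := hdom F' hF'
  rw [hint (fun z => h z * ‖φ z‖ ^ 2) (FBE_inv_mul hh' isq).2, hint (fun z => ‖φ z‖ ^ 2) isq.2,
    hint h hh'.2, hvF]
  set I : ℝ := ∫ z in F, ‖φ z‖ ^ 2 with hI
  have hI0 : 0 ≤ I := integral_nonneg fun z => by positivity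
  -- the two differences
  have d1 : |(∫ z in F, h z * ‖φ z‖ ^ 2) - ∫ z in F, H i z * ‖φ z‖ ^ 2| ≤ ε / 4 * I := by
    rw [← integral_sub j2 j3]
    refine (abs_integral_le_integral_abs).trans ?_
    rw [hI, ← integral_const_mul]
    refine integral_mono ((j2.sub j3).abs) (j1.const_mul _) fun z => ?_
    show |h z * ‖φ z‖ ^ 2 - H i z * ‖φ z‖ ^ 2| ≤ ε / 4 * ‖φ z‖ ^ 2
    rw [← sub_mul, abs_mul, abs_of_nonneg (show (0 : ℝ) ≤ ‖φ z‖ ^ 2 by positivity)]
    exact mul_le_mul_of_nonneg_right (hi z) (by positivity)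
  have d2 : |(∫ z in F, h z) / (volume F).toReal - (∫ z in F, H i z) / (volume F).toReal| ≤
      ε / 4 := by
    rw [← sub_div, abs_div, abs_of_pos hv, div_le_iff₀ hv, ← integral_sub j0 j0']
    refine (abs_integral_le_integral_abs).trans ?_
    have : (∫ _z in F, ε / 4) = ε / 4 * (volume F).toReal := by
      rw [integral_const, smul_eq_mul, measureReal_restrict_apply_univ, measureReal_def, mul_comm]
    rw [← this]
    exact integral_mono ((j0.sub j0').abs) (integrable_const _) fun z => hi z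
  have d3 : |((∫ z in F, h z) / (volume F).toReal - (∫ z in F, H i z) / (volume F).toReal) * I| ≤
      ε / 4 * I := by
    rw [abs_mul, abs_of_nonneg hI0]
    exact mul_le_mul_of_nonneg_right d2 hI0
  have d4 : 1 / ((l : ℝ) + 1) * I ≤ ε / 4 * I := mul_le_mul_of_nonneg_right hl.le hI0
  have d5 := key.trans d4
  rw [sub_mul] at d3
  rw [abs_le] at d1 d3 d5 ⊢
  constructor <;> nlinarith [d1.1, d1.2, d3.1, d3.2, d5.1, d5.2, mul_nonneg hε.le hI0]

end Pool.Agent.QX
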